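import Pool.Agent.H742Z.GP.Moves

/-!
Closing pieces of the relinking scheme: the cap and the merge.
-/

set_option autoImplicit false

namespace Pool.Agent.H742Z.GP

open Set

variable {α : Type} {R : α → α → Prop} {Q : Set α}

namespace Cap

theorem down {Y : Type} (F : Finset Y) (p : ℕ → Y → α) (H : ℕ) {A B : Set α}
    (hdown : ∀ n < H, ∀ y ∈ F, R (p n y) (p (n + 1) y))
    (inj : ∀ n ≤ H, ∀ m ≤ H, ∀ y ∈ F, ∀ z ∈ F, p n y = p m z → n = m ∧ y = z)
    (hQ : ∀ n ≤ H, ∀ y ∈ F, p n y ∈ Q ∧ p n y ∉ B)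
    (hA : ∀ n ≤ H, ∀ y ∈ F, 1 ≤ n → p n y ∉ A) :
    Mvs R Q (A, B) ((A \ {x | ∃ y ∈ F, x = p 0 y}) ∪ {x | ∃ y ∈ F, x = p H y},
      B ∪ {x | ∃ n < H, ∃ y ∈ F, x = p n y}) := by
  induction H with
  | zero =>
    refine Mvs.weak ?_ subset_union_left
    intro x hx
    by_cases h : ∃ y ∈ F, x = p 0 y
    · exact Or.inr h
    · exact Or.inl ⟨hx, h⟩
  | succ H ih =>
    have h1 := ih (fun n hn => hdown n (by omega))
      (fun n hn m hm => inj n (by omega) m (by omega)) (fun n hn => hQ n (by omega))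
      (fun n hn => hA n (by omega))
    have h2 := batch_move (R := R) (Q := Q) (T := (F : Set Y)) F.finite_toSet (p H) (p (H + 1))
      (A := (A \ {x | ∃ y ∈ F, x = p 0 y}) ∪ {x | ∃ y ∈ F, x = p H y})
      (B := B ∪ {x | ∃ n < H, ∃ y ∈ F, x = p n y})
      (fun y hy z hz h => (inj _ le_rfl _ le_rfl y hy z hz h).2)
      (fun y hy => hdown H (by omega) y hy) (fun y hy => (hQ _ le_rfl y hy).1)
      (by
        rintro y hy (h | ⟨z, hz, h⟩)
        · exact hA _ le_rfl y hy (by omega) h.1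
        · have := (inj _ le_rfl H (by omega) y hy z hz h).1
          omega)
      (by
        rintro y hy (h | ⟨n, hn, z, hz, h⟩)
        · exact (hQ _ le_rfl y hy).2 h
        · have := (inj _ le_rfl n (by omega) y hy z hz h).1
          omega)
      (by
        intro y hy z hz h
        have := (inj _ le_rfl H (by omega) y hy z hz h).1
        omega)
    refine (h1.trans h2).right ?_ ?_
    · rintro x (⟨h | ⟨z, hz, h⟩, hx⟩ | ⟨z, hz, h⟩)
      · exact Or.inl h
      · exact absurd ⟨z, hz, h.symm⟩ hx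
      · exact Or.inr ⟨z, hz, h.symm⟩
    · rintro x ((h | ⟨n, hn, z, hz, h⟩) | ⟨z, hz, h⟩)
      · exact Or.inl h
      · exact Or.inr ⟨n, by omega, z, hz, h⟩
      · exact Or.inr ⟨H, by omega, z, hz, h.symm⟩

/-- adjacency in the plane -/
def adjB (x y : ℤ × ℤ) : Bool :=
  (x.1 + 1 == y.1 && x.2 == y.2) || (y.1 + 1 == x.1 && x.2 == y.2) ||
    (x.1 == y.1 && x.2 + 1 == y.2) || (x.1 == y.1 && y.2 + 1 == x.2)

/-- the box -/
def boxB (x : ℤ × ℤ) : Bool := decide (0 ≤ x.1 ∧ x.1 ≤ 3 ∧ -3 ≤ x.2 ∧ x.2 ≤ 1)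

/-- a list of moves is checked and executed -/
def run : List ((ℤ × ℤ) × (ℤ × ℤ) × Option (ℤ × ℤ)) → List (ℤ × ℤ) × List (ℤ × ℤ) →
    Option (List (ℤ × ℤ) × List (ℤ × ℤ))
  | [], s => some s
  | (x, z, none) :: l, s =>
    if adjB x z = true ∧ boxB z = true ∧ z ∉ s.1 ∧ z ∉ s.2 then
      run l (z :: s.1.filter (· ≠ x), x :: s.2) else none
  | (x, z, some w) :: l, s =>
    if adjB x z = true ∧ adjB x w = true ∧ z ≠ w ∧ boxB z = true ∧ boxB w = true ∧ z ∉ s.2 ∧
        w ∉ s.2 then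
      run l (z :: w :: s.1.filter (· ≠ x), x :: z :: w :: s.2) else none

theorem run_sound (l : List ((ℤ × ℤ) × (ℤ × ℤ) × Option (ℤ × ℤ)))
    (s t : List (ℤ × ℤ) × List (ℤ × ℤ)) (h : run l s = some t) :
    Mvs (fun x y => adjB x y = true) {x | boxB x = true} ({x | x ∈ s.1}, {x | x ∈ s.2})
      ({x | x ∈ t.1}, {x | x ∈ t.2}) := by
  induction l generalizing s with
  | nil =>
    simp only [run, Option.some.injEq] at h
    subst h
    exact Relation.ReflTransGen.refl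
  | cons a l ih =>
    obtain ⟨x, z, w⟩ := a
    cases w with
    | none =>
      simp only [run] at h
      split_ifs at h with hc
      refine (Mvs.move (x := x) (z := z) hc.1 hc.2.1 hc.2.2.1 hc.2.2.2).trans
        ((ih _ h).left ?_ ?_)
      · rintro u (⟨h1, h2⟩ | h1)
        · simp only [mem_setOf_eq, List.mem_cons, List.mem_filter, decide_eq_true_eq]
          exact Or.inr ⟨h1, h2⟩
        · simp only [mem_setOf_eq, List.mem_cons]
          exact Or.inl h1
      · rintro u (h1 | h1)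
        · simp only [mem_setOf_eq, List.mem_cons]
          exact Or.inr h1
        · simp only [mem_setOf_eq, List.mem_cons]
          exact Or.inl h1
    | some w =>
      simp only [run] at h
      split_ifs at h with hc
      obtain ⟨c1, c2, c3, c4, c5, c6, c7⟩ := hc
      refine (Mvs.gad (x := x) (z₁ := z) (z₂ := w) c1 c2 c3 c4 c5 c6 c7).trans
        ((ih _ h).left ?_ ?_)
      · rintro u (⟨h1, h2⟩ | h1 | h1)
        · simp only [mem_setOf_eq, List.mem_cons, List.mem_filter, decide_eq_true_eq]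
          exact Or.inr (Or.inr ⟨h1, h2⟩)
        · simp only [mem_setOf_eq, List.mem_cons]
          exact Or.inl h1
        · simp only [mem_setOf_eq, List.mem_cons]
          exact Or.inr (Or.inl h1)
      · rintro u (h1 | h1 | h1 | h1)
        · simp only [mem_setOf_eq, List.mem_cons]
          exact Or.inr (Or.inr (Or.inr h1))
        · simp only [mem_setOf_eq, List.mem_cons]
          exact Or.inl h1
        · simp only [mem_setOf_eq, List.mem_cons]
          exact Or.inr (Or.inl h1)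
        · simp only [mem_setOf_eq, List.mem_cons]
          exact Or.inr (Or.inr (Or.inl h1))

/-- the explicit moves of the merge -/
def prog : List ((ℤ × ℤ) × (ℤ × ℤ) × Option (ℤ × ℤ)) :=
  [((0, 0), (0, -1), none), ((0, 1), (1, 1), none), ((1, 1), (1, 0), none),
   ((1, 0), (1, -1), none), ((3, 0), (3, -1), none), ((3, 1), (2, 1), none),
   ((2, 1), (2, 0), none), ((2, 0), (2, -1), none), ((1, -1), (0, -1), some (2, -1)),
   ((0, -1), (0, -2), none), ((2, -1), (2, -2), none), ((3, -1), (3, -2), none),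
   ((0, -2), (1, -2), none), ((2, -2), (1, -2), some (3, -2)),
   ((1, -2), (1, -3), none), ((1, -3), (2, -3), none), ((3, -2), (3, -3), none)]

theorem prog_ok : ∃ t, run prog ([(0, 0), (0, 1), (3, 0), (3, 1)], []) = some t ∧
    (∀ x ∈ t.1, x = (2, -3) ∨ x = (3, -3)) ∧ ∀ x ∈ t.2, boxB x = true := by
  refine ⟨(run prog ([(0, 0), (0, 1), (3, 0), (3, 1)], [])).getD ([], []), ?_, ?_, ?_⟩ <;> decide

end Cap

theorem cap {Y : Type} (F : Finset Y) (o e : Y) (par : Y → Y) (rk : Y → ℕ) (hoe : o ≠ e)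
    (ho : o ∈ F) (he : e ∈ F)
    (hpar : ∀ y ∈ F, y ≠ o → y ≠ e → par y ∈ F ∧ rk (par y) < rk y)
    (p : ℕ → Y → α) (H : ℕ) (hH : F.card < H) {A B : Set α}
    (hdown : ∀ n < H, ∀ y ∈ F, R (p n y) (p (n + 1) y))
    (hside : ∀ n ≤ H, ∀ y ∈ F, y ≠ o → y ≠ e → R (p n y) (p n (par y)) ∧ R (p n (par y)) (p n y))
    (hroot : ∀ n ≤ H, R (p n o) (p n e) ∧ R (p n e) (p n o))
    (inj : ∀ n ≤ H, ∀ m ≤ H, ∀ y ∈ F, ∀ z ∈ F, p n y = p m z → n = m ∧ y = z)
    (hQ : ∀ n ≤ H, ∀ y ∈ F, p n y ∈ Q ∧ p n y ∉ B)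
    (hA : ∀ n ≤ H, ∀ y ∈ F, 1 ≤ n → p n y ∉ A) :
    Mvs R Q (A, B) ((A \ {x | ∃ y ∈ F, x = p 0 y}) ∪ {p H o, p H e},
      B ∪ {x | ∃ n < H, ∃ y ∈ F, (n ≤ F.card ∨ y = o ∨ y = e) ∧ x = p n y}) := by
  classical
  induction hc : F.card generalizing F p H A B with
  | zero => rw [Finset.card_eq_zero] at hc; subst hc; simp at ho
  | succ c ih =>
    by_cases hF : ∀ y ∈ F, y = o ∨ y = e
    · refine (Cap.down F p H hdown inj hQ hA).right ?_ ?_
      · rintro x (h | ⟨y, hy, h⟩)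
        · exact Or.inl h
        · rcases hF y hy with rfl | rfl
          · exact Or.inr (Or.inl h)
          · exact Or.inr (Or.inr h)
      · rintro x (h | ⟨n, hn, y, hy, h⟩)
        · exact Or.inl h
        · exact Or.inr ⟨n, hn, y, hy, Or.inr (hF y hy), h⟩
    · have hne : (F.filter fun y => y ≠ o ∧ y ≠ e).Nonempty := by
        push Not at hF
        obtain ⟨y, hy, h⟩ := hF
        exact ⟨y, Finset.mem_filter.2 ⟨hy, h⟩⟩
      obtain ⟨y1, hy1, hmax⟩ := Finset.exists_max_image _ rk hne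
      obtain ⟨hy1F, hy1o, hy1e⟩ := Finset.mem_filter.1 hy1
      obtain ⟨hy2F, hr2⟩ := hpar y1 hy1F hy1o hy1e
      have h12 : par y1 ≠ y1 := fun h => by rw [h] at hr2; omega
      have hH1 : 1 ≤ H := by omega
      have hc1 : 1 ≤ c := by
        have : ({o, e} : Finset Y) ⊆ F := by
          intro y hy
          rcases Finset.mem_insert.1 hy with rfl | hy
          · exact ho
          · rw [Finset.mem_singleton.1 hy]; exact he
        have h2 := Finset.card_le_card this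
        rw [Finset.card_pair hoe] at h2
        omega
      obtain ⟨y3, hy3F, h31, h32, hR3⟩ : ∃ y3 ∈ F, y3 ≠ y1 ∧ y3 ≠ par y1 ∧
          R (p 0 (par y1)) (p 0 y3) := by
        by_cases h2o : par y1 = o
        · exact ⟨e, he, hy1e.symm, by rw [h2o]; exact hoe.symm,
            by rw [h2o]; exact (hroot 0 (by omega)).1⟩
        by_cases h2e : par y1 = e
        · exact ⟨o, ho, hy1o.symm, by rw [h2e]; exact hoe,
            by rw [h2e]; exact (hroot 0 (by omega)).2⟩
        obtain ⟨h3F, hr3⟩ := hpar _ hy2F h2o h2e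
        refine ⟨par (par y1), h3F, fun h => ?_, fun h => ?_,
          (hside 0 (by omega) _ hy2F h2o h2e).1⟩
        · rw [h] at hr3; omega
        · rw [h] at hr3; omega
      have lev : ∀ n ≤ H, ∀ m ≤ H, ∀ y ∈ F, ∀ z ∈ F, n ≠ m → p n y ≠ p m z :=
        fun n hn m hm y hy z hz hnm h => hnm (inj n hn m hm y hy z hz h).1
      have s1 := Mvs.gad (R := R) (Q := Q) (A := A) (B := B) (x := p 0 (par y1)) (z₁ := p 0 y1)
        (z₂ := p 0 y3) (hside 0 (by omega) y1 hy1F hy1o hy1e).2 hR3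
        (fun h => h31 (inj 0 (by omega) 0 (by omega) _ hy1F _ hy3F h).2.symm)
        (hQ 0 (by omega) _ hy1F).1 (hQ 0 (by omega) _ hy3F).1 (hQ 0 (by omega) _ hy1F).2
        (hQ 0 (by omega) _ hy3F).2
      have s1' : Mvs R Q (A, B) ((A \ {p 0 (par y1)}) ∪ {p 0 y1, p 0 y3},
          B ∪ {x | ∃ y ∈ F, x = p 0 y}) := by
        refine s1.right subset_rfl ?_
        rintro x (h | h | h | h)
        · exact Or.inl h
        · exact Or.inr ⟨_, hy2F, h⟩
        · exact Or.inr ⟨_, hy1F, h⟩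
        · exact Or.inr ⟨_, hy3F, h⟩
      have hT : ∀ y ∈ ((F.erase (par y1) : Finset Y) : Set Y), y ∈ F :=
        fun y hy => Finset.mem_of_mem_erase hy
      have s2 := batch_move (R := R) (Q := Q) (T := ((F.erase (par y1) : Finset Y) : Set Y))
        (Finset.finite_toSet _) (p 0) (p 1)
        (A := (A \ {p 0 (par y1)}) ∪ {p 0 y1, p 0 y3}) (B := B ∪ {x | ∃ y ∈ F, x = p 0 y})
        (fun y hy z hz h => (inj 1 hH1 1 hH1 y (hT y hy) z (hT z hz) h).2)
        (fun y hy => hdown 0 (by omega) y (hT y hy)) (fun y hy => (hQ 1 hH1 y (hT y hy)).1)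
        (by
          rintro y hy (h | h | h)
          · exact hA 1 hH1 y (hT y hy) le_rfl h.1
          · exact lev 1 hH1 0 (by omega) y (hT y hy) _ hy1F (by omega) h
          · exact lev 1 hH1 0 (by omega) y (hT y hy) _ hy3F (by omega) h)
        (by
          rintro y hy (h | ⟨z, hz, h⟩)
          · exact (hQ 1 hH1 y (hT y hy)).2 h
          · exact lev 1 hH1 0 (by omega) y (hT y hy) _ hz (by omega) h)
        (fun y hy z hz => lev 1 hH1 0 (by omega) y (hT y hy) _ (hT z hz) (by omega))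
      have s2' : Mvs R Q (A, B) ((A \ {x | ∃ y ∈ F, x = p 0 y}) ∪
          {x | ∃ y ∈ F, y ≠ par y1 ∧ x = p 1 y}, B ∪ {x | ∃ y ∈ F, x = p 0 y}) := by
        refine (s1'.trans s2).right ?_ ?_
        · rintro x (⟨h | h | h, hx⟩ | ⟨y, hy, h⟩)
          · refine Or.inl ⟨h.1, ?_⟩
            rintro ⟨y, hy, rfl⟩
            by_cases hy2 : y = par y1
            · exact h.2 (by rw [hy2]; rfl)
            · exact hx ⟨y, Finset.mem_erase.2 ⟨hy2, hy⟩, rfl⟩
          · exact absurd ⟨y1, Finset.mem_erase.2 ⟨h12.symm, hy1F⟩, h.symm⟩ hx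
          · exact absurd ⟨y3, Finset.mem_erase.2 ⟨h32, hy3F⟩, (mem_singleton_iff.1 h).symm⟩ hx
          · exact Or.inr ⟨y, hT y hy, (Finset.mem_erase.1 hy).1, h.symm⟩
        · rintro x (h | ⟨y, hy, h⟩)
          · exact h
          · exact Or.inr ⟨y, hT y hy, h.symm⟩
      have s3 := Mvs.move (R := R) (Q := Q) (A := (A \ {x | ∃ y ∈ F, x = p 0 y}) ∪
          {x | ∃ y ∈ F, y ≠ par y1 ∧ x = p 1 y}) (B := B ∪ {x | ∃ y ∈ F, x = p 0 y})
        (x := p 1 y1) (z := p 1 (par y1)) (hside 1 hH1 y1 hy1F hy1o hy1e).1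
        (hQ 1 hH1 _ hy2F).1
        (by
          rintro (h | ⟨y, hy, hy2, h⟩)
          · exact hA 1 hH1 _ hy2F le_rfl h.1
          · exact hy2 (inj 1 hH1 1 hH1 _ hy2F y hy h).2.symm)
        (by
          rintro (h | ⟨y, hy, h⟩)
          · exact (hQ 1 hH1 _ hy2F).2 h
          · exact lev 1 hH1 0 (by omega) _ hy2F _ hy (by omega) h)
      have s3' : Mvs R Q (A, B) ((A \ {x | ∃ y ∈ F, x = p 0 y}) ∪
          {x | ∃ y ∈ F.erase y1, x = p 1 y}, (B ∪ {x | ∃ y ∈ F, x = p 0 y}) ∪ {p 1 y1}) := by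
        refine (s2'.trans s3).right ?_ subset_rfl
        rintro x (⟨h | ⟨y, hy, -, h⟩, hx⟩ | h)
        · exact Or.inl h
        · refine Or.inr ⟨y, Finset.mem_erase.2 ⟨?_, hy⟩, h⟩
          rintro rfl
          exact hx h
        · exact Or.inr ⟨_, Finset.mem_erase.2 ⟨h12, hy2F⟩, h⟩
      obtain ⟨K, rfl⟩ : ∃ K, H = K + 1 := ⟨H - 1, by omega⟩
      have hE : ∀ y ∈ F.erase y1, y ∈ F := fun y hy => Finset.mem_of_mem_erase hy
      have hcard : (F.erase y1).card = c := by rw [Finset.card_erase_of_mem hy1F]; omega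
      have s4 := ih (F.erase y1) (Finset.mem_erase.2 ⟨hy1o.symm, ho⟩)
        (Finset.mem_erase.2 ⟨hy1e.symm, he⟩)
        (by
          intro y hy hyo hye
          obtain ⟨h1, h2⟩ := hpar y (hE y hy) hyo hye
          refine ⟨Finset.mem_erase.2 ⟨?_, h1⟩, h2⟩
          intro h
          have := hmax y (Finset.mem_filter.2 ⟨hE y hy, hyo, hye⟩)
          rw [h] at h2
          omega)
        (fun n => p (n + 1)) K (by omega)
        (A := (A \ {x | ∃ y ∈ F, x = p 0 y}) ∪ {x | ∃ y ∈ F.erase y1, x = p 1 y})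
        (B := (B ∪ {x | ∃ y ∈ F, x = p 0 y}) ∪ {p 1 y1})
        (fun n hn y hy => hdown (n + 1) (by omega) y (hE y hy))
        (fun n hn y hy => hside (n + 1) (by omega) y (hE y hy))
        (fun n hn => hroot (n + 1) (by omega))
        (fun n hn m hm y hy z hz h => by
          have := inj (n + 1) (by omega) (m + 1) (by omega) y (hE y hy) z (hE z hz) h
          exact ⟨by omega, this.2⟩)
        (by
          intro n hn y hy
          refine ⟨(hQ (n + 1) (by omega) y (hE y hy)).1, ?_⟩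
          rintro ((h | ⟨z, hz, h⟩) | h)
          · exact (hQ (n + 1) (by omega) y (hE y hy)).2 h
          · exact lev (n + 1) (by omega) 0 (by omega) y (hE y hy) z hz (by omega) h
          · exact (Finset.mem_erase.1 hy).1
              (inj (n + 1) (by omega) 1 hH1 y (hE y hy) y1 hy1F h).2)
        (by
          rintro n hn y hy h1 (h | ⟨z, hz, h⟩)
          · exact hA (n + 1) (by omega) y (hE y hy) (by omega) h.1
          · exact lev (n + 1) (by omega) 1 hH1 y (hE y hy) z (hE z hz) (by omega) h)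
        hcard
      refine (s3'.trans s4).right ?_ ?_
      · rintro x (⟨h | h, hx⟩ | h)
        · exact Or.inl h
        · exact absurd h hx
        · exact Or.inr h
      · rintro x (((h | ⟨y, hy, h⟩) | h) | ⟨n, hn, y, hy, h1, h⟩)
        · exact Or.inl h
        · exact Or.inr ⟨0, by omega, y, hy, Or.inl (by omega), h⟩
        · exact Or.inr ⟨1, by omega, y1, hy1F, Or.inl (by omega), h⟩
        · refine Or.inr ⟨n + 1, by omega, y, hE y hy, ?_, h⟩
          rcases h1 with h1 | h1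
          · exact Or.inl (by omega)
          · exact Or.inr h1

theorem merge (q : ℤ → ℤ → α) {A B : Set α}
    (hinj : ∀ a b a' b', q a b = q a' b' → a = a' ∧ b = b')
    (hR₁ : ∀ a b, R (q a b) (q (a + 1) b) ∧ R (q (a + 1) b) (q a b))
    (hR₂ : ∀ a b, R (q a b) (q a (b + 1)) ∧ R (q a (b + 1)) (q a b))
    (hQ : ∀ a b, 0 ≤ a → a ≤ 3 → -3 ≤ b → b ≤ 1 → q a b ∈ Q ∧ q a b ∉ B)
    (hA : A ⊆ {q 0 0, q 0 1, q 3 0, q 3 1}) :
    Mvs R Q (A, B) ({q 2 (-3), q 3 (-3)},
      B ∪ {x | ∃ a b, 0 ≤ a ∧ a ≤ 3 ∧ -3 ≤ b ∧ b ≤ 1 ∧ x = q a b}) := by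
  obtain ⟨t, ht, h1, h2⟩ := Cap.prog_ok
  have hbox : ∀ z : ℤ × ℤ, Cap.boxB z = true → 0 ≤ z.1 ∧ z.1 ≤ 3 ∧ -3 ≤ z.2 ∧ z.2 ≤ 1 := by
    intro z hz
    simpa [Cap.boxB] using hz
  have hf := frame (R := R) (Q := Q) (fun z : ℤ × ℤ => q z.1 z.2)
    (fun z w h => Prod.ext (hinj _ _ _ _ h).1 (hinj _ _ _ _ h).2)
    (by
      rintro ⟨a, b⟩ ⟨c, d⟩ h
      simp only [Cap.adjB, Bool.or_eq_true, Bool.and_eq_true, beq_iff_eq] at h
      rcases h with ((⟨rfl, rfl⟩ | ⟨rfl, rfl⟩) | ⟨rfl, rfl⟩) | ⟨rfl, rfl⟩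
      · exact (hR₁ _ _).1
      · exact (hR₁ _ _).2
      · exact (hR₂ _ _).1
      · exact (hR₂ _ _).2)
    (fun z hz => (hQ _ _ (hbox z hz).1 (hbox z hz).2.1 (hbox z hz).2.2.1 (hbox z hz).2.2.2).1)
    (A₀ := ∅) (B₀ := B) (fun z _ h => h)
    (fun z hz => (hQ _ _ (hbox z hz).1 (hbox z hz).2.1 (hbox z hz).2.2.1 (hbox z hz).2.2.2).2)
    (Cap.run_sound _ _ _ ht)
  refine (hf.left ?_ subset_union_left).right ?_ ?_
  · intro x hx
    refine Or.inr ?_
    rcases hA hx with rfl | rfl | rfl | rfl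
    · exact ⟨(0, 0), by simp, rfl⟩
    · exact ⟨(0, 1), by simp, rfl⟩
    · exact ⟨(3, 0), by simp, rfl⟩
    · exact ⟨(3, 1), by simp, rfl⟩
  · rintro x (h | ⟨z, hz, rfl⟩)
    · exact h.elim
    · rcases h1 z hz with rfl | rfl
      · exact Or.inl rfl
      · exact Or.inr rfl
  · rintro x (h | ⟨z, hz, rfl⟩)
    · exact Or.inl h
    · have := hbox z (h2 z hz)
      exact Or.inr ⟨z.1, z.2, this.1, this.2.1, this.2.2.1, this.2.2.2, rfl⟩

end Pool.Agent.H742Z.GP
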